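import Pool.Agent.Lib.MP_75c153_gt.Cf.CfMain

namespace Pool.Agent.Results.MP_75c153_gt.TorsionApproxFails

open Filter Topology Pool.Agent.Lib.MP_570070_gt.An Pool.Agent.Lib.MP_75c153_gt.Ft

/-- A closed Riemannian 5-manifold `Y 0` with free fundamental group `G` and universal cover `X`,
and a chain `G = K 0 > K 1 > ...` of normal subgroups of finite index with trivial intersection,
cofinal among all subgroups of finite index,
such that all torsions are defined and the normalised Ray-Singer torsions of the covers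
`Y i = X / K i` do not converge to the analytic L2-torsion of `X`: they stay below it by at least
`1 / 8`. -/
theorem result : ∃ (G : Type) (_ : Group G) (X : RMfd 5) (_ : MulAction G X.M) (F : Set X.M)
    (K : ℕ → Subgroup G) (Y : ℕ → RMfd 5) (π : ∀ i, X.M → (Y i).M),
    (∃ m : ℕ, Nonempty (G ≃* FreeGroup (Fin m))) ∧ SimplyConnectedSpace X.M ∧ IsAction G X ∧
    IsFund G X F ∧ K 0 = ⊤ ∧ StrictAnti K ∧ (∀ i, (K i).Normal ∧ (K i).FiniteIndex) ∧
    ⨅ i, K i = ⊥ ∧ (∀ N : Subgroup G, N.FiniteIndex → ∃ i, K i ≤ N) ∧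
    (∀ i, IsCover (K i) X (Y i) (π i) ∧ CompactSpace (Y i).M) ∧
    (∃ ρ, IsTorsion X F ρ) ∧ (∀ i, ∃ r, IsRS (Y i) r) ∧
    ∀ (ρ : ℝ) (r : ℕ → ℝ), IsTorsion X F ρ → (∀ i, IsRS (Y i) (r i)) →
      (∀ᶠ i in atTop, r i / (K i).index ≤ ρ - 1 / 8) ∧
        ¬ Tendsto (fun i => r i / (K i).index) atTop (𝓝 ρ) := by
  obtain ⟨c, K, _, h0, hs, hi, hf, hcof, H⟩ := up_main_cof
  obtain ⟨a1, a2, π, hπ⟩ := exists_geometry c
    (fun e => (e.elim 1 FreeGroup.of : FreeGroup (Fin (c.m + 1)))) K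
  refine ⟨_, inferInstance, _, actN _, _, K, _, π, ⟨_, ⟨MulEquiv.refl _⟩⟩, simplyConnected_free c,
    a1, a2, h0, hs, fun i => ⟨inferInstance, hf i⟩, hi, hcof,
    fun i => ⟨hπ i, compactSpace_mfd _⟩,
    exists_isTorsion_grp c _ K hs.antitone hi, fun i => ?_, fun ρ r hρ hr => ?_⟩
  · have := compactSpace_mfd (grpGl c fun e => ((e.elim 1 FreeGroup.of :
      FreeGroup (Fin (c.m + 1))) : FreeGroup (Fin (c.m + 1)) ⧸ K i))
    exact Pool.Agent.Lib.MP_570070_gt.Ex.exists_isRS (hasHeat_mfd _)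
  have h := H ρ (fun i => r i / (K i).index) (upTorsion_of hρ) fun i => by
    have := Fintype.ofFinite (FreeGroup (Fin (c.m + 1)) ⧸ K i)
    rw [Subgroup.index_eq_card, Nat.card_eq_fintype_card]
    exact upTorsion_of_isRS (hr i)
  refine ⟨h, fun ht => ?_⟩
  have := le_of_tendsto ht h
  linarith

/-- The statement without cofinality: the negation of the question as posed. -/
theorem plain : ∃ (G : Type) (_ : Group G) (X : RMfd 5) (_ : MulAction G X.M) (F : Set X.M)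
    (K : ℕ → Subgroup G) (Y : ℕ → RMfd 5) (π : ∀ i, X.M → (Y i).M),
    (∃ m : ℕ, Nonempty (G ≃* FreeGroup (Fin m))) ∧ SimplyConnectedSpace X.M ∧ IsAction G X ∧
    IsFund G X F ∧ K 0 = ⊤ ∧ StrictAnti K ∧ (∀ i, (K i).Normal ∧ (K i).FiniteIndex) ∧
    ⨅ i, K i = ⊥ ∧ (∀ i, IsCover (K i) X (Y i) (π i) ∧ CompactSpace (Y i).M) ∧
    (∃ ρ, IsTorsion X F ρ) ∧ (∀ i, ∃ r, IsRS (Y i) r) ∧
    ∀ (ρ : ℝ) (r : ℕ → ℝ), IsTorsion X F ρ → (∀ i, IsRS (Y i) (r i)) →
      (∀ᶠ i in atTop, r i / (K i).index ≤ ρ - 1 / 8) ∧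
        ¬ Tendsto (fun i => r i / (K i).index) atTop (𝓝 ρ) := by
  obtain ⟨G, _, X, _, F, K, Y, π, h1, h2, h3, h4, h5, h6, h7, h8, -, h9⟩ := result
  exact ⟨G, _, X, _, F, K, Y, π, h1, h2, h3, h4, h5, h6, h7, h8, h9⟩

end Pool.Agent.Results.MP_75c153_gt.TorsionApproxFails
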